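import Pool.Agent.K4H6.Cov.Box2

set_option autoImplicit false

/-! Kernels from finite sums of centred boxes. -/

namespace Pool.Agent.K4H6.Qn

open Filter Topology MeasureTheory Complex Pool.Agent.K4H6.Cov

noncomputable section

/-- a nonnegative combination of centred boxes of total mass one -/
structure BoxSum {n : ℕ} (h c : Fin n → ℝ) : Prop where
  h0 : ∀ i, 0 ≤ h i
  h1 : ∀ i, h i ≤ 1 / 2
  c0 : ∀ i, 0 ≤ c i
  one : ∑ i, c i * (2 * h i) = 1

/-- the kernel -/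
def kn {n : ℕ} (h c : Fin n → ℝ) (z : ℂ) : ℂ := ∑ i, (c i : ℂ) * kb (h i) z

/-- the spectral density -/
def Rn {n : ℕ} (h c : Fin n → ℝ) (s : ℝ) : ℝ := ∑ i, ∑ j, c i * c j * trap (h i) (h j) s

/-- the measure -/
def mun {n : ℕ} (h c : Fin n → ℝ) : Measure ℝ :=
  ∑ i, (ENNReal.ofReal (c i)) • volume.restrict (Set.Ioc (-h i) (h i))

section

variable {n : ℕ} {h c : Fin n → ℝ}

lemma mun_int {E : Type*} [NormedAddCommGroup E] {f : ℝ → E} (hf : Continuous f) : Integrable f (mun h c) := by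
  unfold mun
  rw [integrable_finsetSum_measure]
  intro i _
  refine Integrable.smul_measure ?_ ENNReal.ofReal_ne_top
  exact hf.integrableOn_Ioc

lemma mun_eq (hb : BoxSum h c) {f : ℝ → ℂ} (hf : Continuous f) :
    ∫ x, f x ∂(mun h c) = ∑ i, (c i : ℂ) * ∫ x in (-h i)..(h i), f x := by
  unfold mun
  rw [integral_finsetSum_measure]
  · refine Finset.sum_congr rfl fun i _ => ?_
    rw [integral_smul_measure, ENNReal.toReal_ofReal (hb.c0 i), Complex.real_smul,
      intervalIntegral.integral_of_le (by linarith [hb.h0 i])]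
  · intro i _
    refine Integrable.smul_measure ?_ ENNReal.ofReal_ne_top
    exact hf.integrableOn_Ioc

lemma gn_memLp (Λ : ℝ) (z : ℂ) : MemLp (gv Λ z) 2 (mun h c) := by
  rw [memLp_two_iff_integrable_sq_norm (gv_cont Λ z).aestronglyMeasurable]
  have h := gv_cont Λ z
  exact mun_int (by fun_prop)

lemma gn_inner (hb : BoxSum h c) (Λ : ℝ) (z w : ℂ) :
    ∫ x, (starRingEnd ℂ) (gv Λ z x) * gv Λ w x ∂(mun h c) = kn h c (Λ * (w - (starRingEnd ℂ) z)) := by
  have e : ∀ x : ℝ, (starRingEnd ℂ) (gv Λ z x) * gv Λ w x = cexp (I * (Λ * (w - (starRingEnd ℂ) z)) * x) := by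
    intro x
    simp only [gv, map_mul, Complex.conj_ofReal, ← Complex.exp_conj, Complex.conj_I]
    rw [← Complex.exp_add]
    congr 1
    ring
  simp_rw [e]
  rw [mun_eq hb (by fun_prop)]
  rfl

theorem gramn (hb : BoxSum h c) (Λ : ℝ) : ∃ (E : Type) (_ : NormedAddCommGroup E) (_ : InnerProductSpace ℂ E)
    (g : ℂ → E), ∀ z w, inner ℂ (g z) (g w) = kn h c (Λ * (w - (starRingEnd ℂ) z)) := by
  refine ⟨Lp ℂ 2 (mun h c), inferInstance, inferInstance, fun z => (gn_memLp Λ z).toLp _, fun z w => ?_⟩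
  rw [L2.inner_def, ← gn_inner hb]
  apply integral_congr_ae
  filter_upwards [(gn_memLp (h := h) (c := c) Λ z).coeFn_toLp, (gn_memLp (h := h) (c := c) Λ w).coeFn_toLp] with p h1 h2
  rw [h1, h2, RCLike.inner_apply, mul_comm]

lemma kn_zero (hb : BoxSum h c) : kn h c 0 = 1 := by
  unfold kn
  simp_rw [kb_zero]
  rw [← Complex.ofReal_one, ← hb.one]
  push_cast
  rfl

lemma kn_even (z : ℂ) : kn h c (-z) = kn h c z := by
  unfold kn
  simp_rw [kb_even]

lemma kn_cont : Continuous (kn h c) := by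
  unfold kn
  have := fun i : Fin n => kb_cont (h i)
  fun_prop

lemma kn_im_le (hb : BoxSum h c) (Λ L : ℝ) (z : ℂ) (hΛ : 0 ≤ Λ) (hL : Λ ≤ L) :
    ‖kn h c (Λ * ((starRingEnd ℂ) z - z))‖ ≤ Real.exp (|z.im| * L) := by
  unfold kn
  have h1 : ‖∑ i, (c i : ℂ) * kb (h i) (Λ * ((starRingEnd ℂ) z - z))‖ ≤
      ∑ i, c i * (2 * h i) * Real.exp (|z.im| * L) := by
    refine (norm_sum_le _ _).trans (Finset.sum_le_sum fun i _ => ?_)
    rw [norm_mul, Complex.norm_real, Real.norm_eq_abs, abs_of_nonneg (hb.c0 i), mul_assoc]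
    exact mul_le_mul_of_nonneg_left (kb_im_le (h i) Λ L z (hb.h0 i) (hb.h1 i) hΛ hL) (hb.c0 i)
  rw [← Finset.sum_mul, hb.one, one_mul] at h1
  exact h1

lemma tr_ii (h k a b : ℝ) (z : ℂ) : IntervalIntegrable (fun α : ℝ => (trap h k α : ℂ) * cexp (I * z * α)) volume a b := by
  have := trap_cont h k
  exact Continuous.intervalIntegrable (by fun_prop) _ _

lemma kn_sq (hb : BoxSum h c) (z : ℂ) :
    kn h c z ^ 2 = ∫ α in (-1 : ℝ)..1, (Rn h c α : ℂ) * cexp (I * z * α) := by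
  have e1 : kn h c z ^ 2 = ∑ i, ∑ j, (c i : ℂ) * (c j : ℂ) * (kb (h i) z * kb (h j) z) := by
    unfold kn
    rw [sq, Finset.sum_mul_sum]
    refine Finset.sum_congr rfl fun i _ => Finset.sum_congr rfl fun j _ => by ring
  rw [e1]
  simp_rw [fun i j : Fin n => kb_mul (h i) (h j) (hb.h0 i) (hb.h0 j) (hb.h1 i) (hb.h1 j) z]
  have e2 : ∀ α : ℝ, (Rn h c α : ℂ) * cexp (I * z * α) =
      ∑ i, ∑ j, (c i : ℂ) * (c j : ℂ) * ((trap (h i) (h j) α : ℂ) * cexp (I * z * α)) := by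
    intro α
    unfold Rn
    push_cast
    rw [Finset.sum_mul]
    refine Finset.sum_congr rfl fun i _ => ?_
    rw [Finset.sum_mul]
    refine Finset.sum_congr rfl fun j _ => by ring
  simp_rw [e2]
  have hc1 : ∀ i j : Fin n, IntervalIntegrable (fun α : ℝ =>
      (c i : ℂ) * (c j : ℂ) * ((trap (h i) (h j) α : ℂ) * cexp (I * z * α))) volume (-1) 1 :=
    fun i j => (tr_ii _ _ _ _ z).const_mul _
  have hc2 : ∀ i : Fin n, IntervalIntegrable (fun α : ℝ =>
      ∑ j, (c i : ℂ) * (c j : ℂ) * ((trap (h i) (h j) α : ℂ) * cexp (I * z * α))) volume (-1) 1 := by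
    intro i
    have := fun j => trap_cont (h i) (h j)
    exact Continuous.intervalIntegrable (by fun_prop) _ _
  rw [intervalIntegral.integral_finsetSum (fun i _ => hc2 i)]
  refine Finset.sum_congr rfl fun i _ => ?_
  rw [intervalIntegral.integral_finsetSum (fun j _ => hc1 i j)]
  refine Finset.sum_congr rfl fun j _ => ?_
  rw [intervalIntegral.integral_const_mul]

lemma Rn_cont : Continuous (Rn h c) := by
  unfold Rn
  have := fun i j : Fin n => trap_cont (h i) (h j)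
  fun_prop

lemma Rn_nonneg (hb : BoxSum h c) (x : ℝ) : 0 ≤ Rn h c x := by
  unfold Rn
  exact Finset.sum_nonneg fun i _ => Finset.sum_nonneg fun j _ =>
    mul_nonneg (mul_nonneg (hb.c0 i) (hb.c0 j)) (trap_nonneg _ _ _)

lemma Rn_even (x : ℝ) : Rn h c (-x) = Rn h c x := by
  unfold Rn
  simp_rw [trap_even]

lemma Rn_le (hb : BoxSum h c) (x : ℝ) : Rn h c x ≤ Rn h c 0 := by
  unfold Rn
  exact Finset.sum_le_sum fun i _ => Finset.sum_le_sum fun j _ =>
    mul_le_mul_of_nonneg_left (trap_le _ _ _) (mul_nonneg (hb.c0 i) (hb.c0 j))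

lemma Rn_lip (hb : BoxSum h c) : ∃ K : ℝ, 0 < K ∧ ∀ x y : ℝ, |Rn h c x - Rn h c y| ≤ K * |x - y| := by
  refine ⟨(∑ i, ∑ j, c i * c j) + 1, ?_, fun x y => ?_⟩
  · have : 0 ≤ ∑ i, ∑ j, c i * c j :=
      Finset.sum_nonneg fun i _ => Finset.sum_nonneg fun j _ => mul_nonneg (hb.c0 i) (hb.c0 j)
    linarith
  · have h1 : |Rn h c x - Rn h c y| ≤ (∑ i, ∑ j, c i * c j) * |x - y| := by
      unfold Rn
      rw [← Finset.sum_sub_distrib, Finset.sum_mul]
      refine (Finset.abs_sum_le_sum_abs _ _).trans (Finset.sum_le_sum fun i _ => ?_)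
      rw [← Finset.sum_sub_distrib, Finset.sum_mul]
      refine (Finset.abs_sum_le_sum_abs _ _).trans (Finset.sum_le_sum fun j _ => ?_)
      rw [← mul_sub, abs_mul, abs_of_nonneg (mul_nonneg (hb.c0 i) (hb.c0 j))]
      exact mul_le_mul_of_nonneg_left (trap_lip _ _ _ _) (mul_nonneg (hb.c0 i) (hb.c0 j))
    have h2 := abs_nonneg (x - y)
    linarith

theorem ker_n (hb : BoxSum h c) : Ker (kn h c) (Rn h c) where
  gram := gramn hb
  keven := kn_even
  kzero := kn_zero hb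
  im_le := kn_im_le hb
  kcont := kn_cont
  sq := kn_sq hb
  rcont := Rn_cont
  rnonneg := Rn_nonneg hb
  reven := Rn_even
  rle := Rn_le hb
  rlip := Rn_lip hb

/-! ### constants -/

lemma xRn_int (a b : ℝ) : ∫ x in a..b, x * Rn h c x = ∑ i, ∑ j, c i * c j * ∫ x in a..b, x * trap (h i) (h j) x := by
  have e2 : ∀ x : ℝ, x * Rn h c x = ∑ i, ∑ j, c i * c j * (x * trap (h i) (h j) x) := by
    intro x
    unfold Rn
    rw [Finset.mul_sum]
    refine Finset.sum_congr rfl fun i _ => ?_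
    rw [Finset.mul_sum]
    refine Finset.sum_congr rfl fun j _ => by ring
  simp_rw [e2]
  have hc1 : ∀ i j : Fin n, IntervalIntegrable (fun x : ℝ => c i * c j * (x * trap (h i) (h j) x)) volume a b :=
    fun i j => (xt_ii _ _ _ _).const_mul _
  have hc2 : ∀ i : Fin n, IntervalIntegrable (fun x : ℝ => ∑ j, c i * c j * (x * trap (h i) (h j) x)) volume a b := by
    intro i
    have := fun j => trap_cont (h i) (h j)
    exact Continuous.intervalIntegrable (by fun_prop) _ _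
  rw [intervalIntegral.integral_finsetSum (fun i _ => hc2 i)]
  refine Finset.sum_congr rfl fun i _ => ?_
  rw [intervalIntegral.integral_finsetSum (fun j _ => hc1 i j)]
  refine Finset.sum_congr rfl fun j _ => ?_
  rw [intervalIntegral.integral_const_mul]

lemma Af_le {h k : ℝ} (h0 : 0 ≤ h) (k0 : 0 ≤ k) (h1 : h ≤ 1 / 2) (k1 : k ≤ 1 / 2) :
    Af h k ≤ 1 / 6 * ((2 * h) * (2 * k)) := by
  have key : ∀ a b : ℝ, 0 ≤ b → b ≤ a → a ≤ 1 / 2 → b * a ^ 2 + b ^ 3 / 3 ≤ 1 / 6 * ((2 * a) * (2 * b)) := by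
    intro a b hb hab ha
    have h2 : b ^ 3 ≤ b * a ^ 2 := by
      have : b ^ 2 ≤ a ^ 2 := pow_le_pow_left₀ hb hab 2
      calc b ^ 3 = b * b ^ 2 := by ring
        _ ≤ _ := mul_le_mul_of_nonneg_left this hb
    have h3 : b * a ^ 2 ≤ b * (a * (1 / 2)) := by
      refine mul_le_mul_of_nonneg_left ?_ hb
      rw [sq]
      exact mul_le_mul_of_nonneg_left ha (hb.trans hab)
    linarith
  unfold Af
  rcases le_total k h with hk | hk
  · rw [abs_of_nonneg (by linarith : 0 ≤ h - k)]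
    have := key h k k0 hk h1
    refine le_trans (le_of_eq ?_) this
    ring
  · rw [abs_of_nonpos (by linarith : h - k ≤ 0)]
    have := key k h h0 hk k1
    refine le_trans (le_of_eq ?_) (this.trans (le_of_eq ?_))
    · ring
    · ring

/-- the mean distance is small -/
lemma Rn_int_le (hb : BoxSum h c) : ∫ x in (0:ℝ)..1, x * Rn h c x ≤ 1 / 6 := by
  rw [xRn_int]
  have h1 : ∑ i, ∑ j, c i * c j * ∫ x in (0:ℝ)..1, x * trap (h i) (h j) x ≤
      ∑ i, ∑ j, 1 / 6 * ((c i * (2 * h i)) * (c j * (2 * h j))) := by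
    refine Finset.sum_le_sum fun i _ => Finset.sum_le_sum fun j _ => ?_
    rw [full (hb.h0 i) (hb.h0 j) (by linarith [hb.h1 i, hb.h1 j])]
    have h2 := Af_le (hb.h0 i) (hb.h0 j) (hb.h1 i) (hb.h1 j)
    have h3 := mul_le_mul_of_nonneg_left h2 (mul_nonneg (hb.c0 i) (hb.c0 j))
    refine h3.trans (le_of_eq ?_)
    ring
  refine h1.trans (le_of_eq ?_)
  simp_rw [← Finset.mul_sum]
  rw [← Finset.sum_mul, hb.one]
  norm_num

end

end

end Pool.Agent.K4H6.Qn
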