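import Pool.Agent.K4H6.Win.Co
import Pool.Agent.K4H6.Qn.Cb

set_option autoImplicit false

/-! Multiplicities in arbitrary sets of heights: the two main estimates. -/

namespace Pool.Agent.K4H6.Qn

open Filter Topology MeasureTheory Complex H370 TH803UC TH803CL Pool.Agent.Y745.SW Pool.Agent.K4H6.Cov
  Pool.Agent.K4H6.Win

noncomputable section

/-- **the two main estimates** -/
theorem coreD {kt : ℂ → ℂ} {R : ℝ → ℝ} (hk0 : Ker kt R) (hR02 : R 0 ≤ 5)
    (hRi : (∫ x in (0:ℝ)..1, x * R x) ≤ 1 / 2) {g : ℝ} (hg : 0 < g) (hg1 : g ≤ 1 / 1000) :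
    ∃ τm N N0 : ℝ, 0 < τm ∧ 1 ≤ N ∧ 0 ≤ N0 ∧ N0 ≤ g * N ∧ ∀ τ : ℝ, 0 < τ → τ ≤ τm →
      ∀ (c : ℕ → ℂ) (C0 : ℝ), (∀ n, ‖c n‖ ≤ ArithmeticFunction.vonMangoldt n) →
      ∀ᶠ T : ℝ in atTop, ∀ U1 U2 : ℝ, EFD c C0 T U1 U2 → ∀ S : Set ℝ, MeasurableSet S →
        S ⊆ Set.Icc (T + Real.log T) (2 * T - Real.log T) →
        (∫ t in S, Sm ph U1 U2 ((N - N0) / (τ * Real.log T)) t ≤
          volume.real S * ((R 0 + 2 * ((∫ x in (0:ℝ)..1, x * R x) - ∫ x in (1/2:ℝ)..1, x * R x)) *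
            (N / (Real.pi * τ))) + T * (2 * (∫ x in (1/2:ℝ)..1, x * R x)) * (N / (Real.pi * τ)) +
            70 * g * (T * (N / (Real.pi * τ)))) ∧
        (∫ t in S, |Sm (fun m => m) U1 U2 ((N - N0) / (τ * Real.log T)) t - N / (Real.pi * τ)| ≤
          3 * g * (T * (N / (Real.pi * τ)))) := by
  classical
  have a_EF : P_EF := Pool.Agent.Y228.SW.t_EF
  obtain ⟨CS, hCS, hSM⟩ : P_SM := Pool.Agent.Y274.SW.t_SM Pool.Agent.Y840.SW.t_MVB a_EF
  obtain ⟨j, τ0, hτ0, hτ01, hE⟩ := ersW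
  obtain ⟨C, hC, hB⟩ := Pool.Agent.Y248.SW.t_KER j
  have hRc := hk0.rcont
  have hR0 := hk0.rnonneg
  have hRm := hk0.rle
  have hθ : 0 < g := hg
  have hR1c := R1_cont hRc g
  have hR2c := R2_cont hRc g
  obtain ⟨CD1, hCD1, hDF1⟩ := Pool.Agent.Y240.SW.t_DF (R1 R g) hR1c (fun x _ => R1_nonneg hR0 g x) (R1_lip hR0 hRm hk0.rlip hθ)
  obtain ⟨CD2, hCD2, hDF2⟩ := Pool.Agent.Y240.SW.t_DF (R2 R g) hR2c (fun x _ => R2_nonneg hR0 g x) (R2_lip hR0 hRm hk0.rlip hθ)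
  set CD : ℝ := CD1 + CD2 with hCDd
  have hCD : 0 < CD := add_pos hCD1 hCD2
  have hpi := Real.pi_pos
  have h1c := Pool.Agent.Y274.SW.c1_pos
  set ε2 : ℝ := g / (10 * Real.pi) with hε2
  have hε20 : 0 < ε2 := by positivity
  have hε2g : ε2 ≤ g := by
    rw [hε2]
    refine div_le_self hg.le ?_
    have := Real.pi_gt_three
    linarith
  obtain ⟨κ1, Y0, N0, N1, hY0, hN0, hN1, hN01, hE⟩ := hE C hC ε2 hε20
  obtain ⟨B, hW⟩ := hB N1 hN1
  set N := N1 with hN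
  set εs : ℝ := g with hεs
  set q : ℝ := (1 + 1 / g) * (2 * R 0) with hq
  have hq0 : 0 ≤ q := mul_nonneg (by positivity) (mul_nonneg (by norm_num) (hR0 0))
  have hN0' : 0 < N := by linarith
  set C7 : ℝ := 72 * Pool.Agent.Y274.SW.c1 ^ 2 * R 0 ^ 2 with hC7
  have hC70 : 0 ≤ C7 := by positivity
  -- the range of `τ`
  obtain ⟨τm, hτm, hτma, hτmb, hτm1, hτm2, hτm3, hτm4, hτm5⟩ : ∃ τm : ℝ, 0 < τm ∧ τm ≤ τ0 ∧ τm ≤ εs / 4 ∧
      τm * (Real.pi * (C * (1 + CS))) ≤ g ∧ τm * (Real.pi * (q + 4)) ≤ g ∧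
      τm * (20 * Real.pi * (q * CS * C ^ 2 * N)) ≤ g ∧ τm * CD ≤ g ∧
      τm * (C7 * Real.pi ^ 2 * C ^ 4 * N ^ 2) ≤ g ^ 2 := by
    have hC0 : 0 < C := by linarith
    exact tau_choice hτ0 (by positivity) hg (by linarith) (by positivity) (by positivity) (by positivity)
      (by positivity) (by positivity)
  refine ⟨τm, N, N0, hτm, hN1, by linarith, hN01.trans (mul_le_mul_of_nonneg_right hε2g hN0'.le), ?_⟩
  intro τ hτ hττ c C0 hc
  have hτa : τ ≤ τ0 := hττ.trans hτma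
  have hτb : τ ≤ εs / 4 := hττ.trans hτmb
  have hεs0 : 0 < εs := hg
  have hεs2 : εs < 1 / 2 := by linarith
  have hmon : ∀ x y : ℝ, 0 ≤ x → τm * x ≤ y → τ * x ≤ y := fun x y hx h =>
    (mul_le_mul_of_nonneg_right hττ hx).trans h
  have hZq1 := Zq_le (c := c) hW.cont (ε := εs) (τ := τ) (ηs := 4 * τ) hεs0 hεs2 hτ hτb
    le_rfl (by linarith) Pool.Agent.Y240.SW.t_DF hR1c (fun x _ => R1_nonneg hR0 g x) (R1_lip hR0 hRm hk0.rlip hθ) hW.even hc hDF1
  have hZq2 := Zq_le (c := c) hW.cont (ε := εs) (τ := τ) (ηs := 4 * τ) hεs0 hεs2 hτ hτb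
    le_rfl (by linarith) Pool.Agent.Y240.SW.t_DF hR2c (fun x _ => R2_nonneg hR0 g x) (R2_lip hR0 hRm hk0.rlip hθ) hW.even hc hDF2
  obtain ⟨C1, hC1, hEF⟩ := a_EF εs τ hεs0 hεs2 hτ hτb c C0
  have hEF := hEF B (C * N) hW.cont hW.even hW.bd
  have hSM := hSM εs τ hεs0 hεs2 hτ hτb c C0 B (C * N) hW.cont hW.even hW.bd
  have hE := hE N τ le_rfl hτ hτa B hW
  set M : ℝ := N / (Real.pi * τ) with hM
  have hM0 : 0 < M := by positivity
  set w : ℝ := g * M with hw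
  have hw0 : 0 < w := by positivity
  have hlow := low Pool.Agent.Y840.SW.t_MVB hR1c (fun y => R1_nonneg hR0 g y) (fun y => (R1_leR hR0 g y).trans (hRm y))
    (fun y hy => by unfold R1; rw [chi_zero hθ hy, mul_zero]) hc hW.cont hW.bd hεs0 hεs2 hτ hτb hg hw0
  have hhigh := high Pool.Agent.Y840.SW.t_MVB hR2c (fun y => R2_nonneg hR0 g y) (c := c) hW.cont hεs0 hεs2 hτ hτb hg
  -- the main term
  have hMu : ∀ᶠ T : ℝ in atTop, |Mu B (τ * Real.log T) (Real.log T) 0 - M| ≤ g * M := by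
    have h1 := (Mu_lim hW.cont hτ).comp Real.tendsto_log_atTop
    rw [hW.zero] at h1
    have h2 : N / Real.pi / τ = M := by rw [hM, div_div]
    rw [h2, Metric.tendsto_nhds] at h1
    filter_upwards [h1 (g * M) (by positivity)] with T hT
    rw [Real.dist_eq] at hT
    exact hT.le
  have hlog := Real.tendsto_log_atTop
  have hTl : ∀ᶠ T : ℝ in atTop, T + Real.log T ≤ 2 * T - Real.log T := by
    have h1 := Real.isLittleO_log_id_atTop.def (c := 1 / 2) (by norm_num)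
    filter_upwards [h1, eventually_ge_atTop 1] with T hT hT1
    rw [Real.norm_eq_abs, Real.norm_eq_abs, id, abs_of_pos (by linarith : 0 < T)] at hT
    have := le_abs_self (Real.log T)
    linarith
  have hsm1 : ∀ᶠ T : ℝ in atTop, C1 * (C * N) / Real.log T ≤ 1 / 2 := by
    filter_upwards [hlog.eventually_ge_atTop (2 * (C1 * (C * N)) + 1)] with T hT
    have h0 : 0 ≤ C1 * (C * N) := by positivity
    rw [div_le_iff₀ (by linarith)]
    linarith
  have hsm2 : ∀ᶠ T : ℝ in atTop, 2 * (C * N) * (Real.log T * Real.exp (-(τ * Real.log T) ^ 2 / 2)) ≤ 1 / 2 :=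
    hlog.eventually (tail_ev (C * N) τ hτ)
  filter_upwards [hZq1, hZq2, hEF, hSM, hE, hMu, hTl, hsm1, hsm2, hlog.eventually_ge_atTop 10, eventually_ge_atTop 1,
    hlow, hhigh] with T tZ1 tZ2 tEF tSM tE tMu tT t1 t2 tL tT1 tlow thigh
  intro U1 U2 hefd S hS hSI
  set L := Real.log T with hL
  have hL0 : 0 < L := by linarith
  have hT0 : 0 < T := by linarith
  have hA0 : 0 ≤ volume.real S := measureReal_nonneg
  have hSf : volume S ≠ ⊤ := ne_top_of_le_ne_top (by simp) (measure_mono hSI)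
  have hAT : volume.real S ≤ T := by
    have h1 : volume.real S ≤ volume.real (Set.Icc (T + L) (2 * T - L)) :=
      measureReal_mono hSI (by simp)
    rw [Real.volume_real_Icc_of_le tT] at h1
    linarith
  have hI0 : 0 ≤ ∫ ξ in (-1:ℝ)..1, B ξ ^ 2 :=
    intervalIntegral.integral_nonneg (by norm_num) fun x _ => sq_nonneg _
  have hER := tE U1 U2 hefd.h1 hefd.h4 (T + L) (2 * T - L) tT
  have hU : 1 ≤ U1 := by linarith [hefd.h1]
  constructor
  · have hblk := blockC hk0 (B := B) (c := c) (ε := εs) (τ := τ) (η := g) (K := C * N) (T := T) (U1 := U1) (U2 := U2)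
      Pool.Agent.Y627.SW.t_MN good_zeta hW (by positivity) hεs0 hεs2 hτ hτb hg
      (L := L) (N0 := N0) (κ1 := κ1) (Y0 := Y0) (CS := CS) hL tL tT hU (by linarith)
      (fun t u h1 h2 h3 h4 => (tEF U1 U2 hefd t u h1 h2 h3 h4).trans t1)
      (fun u hu => (Mu_small hW.cont hW.bd (mul_pos hτ hL0) hL0 hu).trans t2) hCS
      (fun u h3 h4 => tSM U1 U2 hefd u h3 h4) hS hSI
    have hr1 : 0 ≤ ∫ x in (0:ℝ)..1, x * R1 R g x :=
      intervalIntegral.integral_nonneg (by norm_num) fun x hx => mul_nonneg hx.1 (R1_nonneg hR0 g x)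
    have hr2 : 0 ≤ ∫ x in (0:ℝ)..1, x * R2 R g x :=
      intervalIntegral.integral_nonneg (by norm_num) fun x hx => mul_nonneg hx.1 (R2_nonneg hR0 g x)
    have hr1' := R1_int hRc hR0 hθ
    have hr2' := R2_int hRc hR0 hRm hθ (by linarith)
    have hhalf0 : 0 ≤ ∫ x in (1/2:ℝ)..1, x * R x :=
      intervalIntegral.integral_nonneg (by norm_num) fun x hx => mul_nonneg (by linarith [hx.1]) (hR0 x)
    have hDcS : ∀ Q : ℝ → ℝ, Continuous Q → IntegrableOn (fun t : ℝ => Dq Q c B εs τ (4 * τ) T t) S := by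
      intro Q hQ
      have h1 : Continuous (fun t : ℝ => Dq Q c B εs τ (4 * τ) T t) :=
        Dq_cont hW.cont hεs0 hεs2 hτ hτb le_rfl (by linarith) hQ hL0
      exact (h1.continuousOn.integrableOn_compact isCompact_Icc).mono_set hSI
    have hsplit : ∫ t in S, Dq R c B εs τ (4 * τ) T t =
        (∫ t in S, Dq (R1 R g) c B εs τ (4 * τ) T t) + ∫ t in S, Dq (R2 R g) c B εs τ (4 * τ) T t := by
      rw [← integral_add (hDcS _ hR1c) (hDcS _ hR2c)]
      refine integral_congr_ae (Filter.Eventually.of_forall fun t => ?_)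
      exact Dq_split hRc hW.cont hεs0 hεs2 hτ hτb hL0 g t
    rw [hsplit] at hblk
    have hlowS := tlow S hS hSI
    have hhighS := thigh S hSI
    have hcd : ∀ x : ℝ, 0 ≤ x → CD1 * x ≤ CD * x ∧ CD2 * x ≤ CD * x := by
      intro x hx
      constructor
      · exact mul_le_mul_of_nonneg_right (by rw [hCDd]; linarith) hx
      · exact mul_le_mul_of_nonneg_right (by rw [hCDd]; linarith) hx
    have a1 : (∫ x in (0:ℝ)..1, x * R1 R g x) ≤ 1 / 2 :=
      hr1'.trans ((sub_le_self _ hhalf0).trans hRi)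
    have a2 : (∫ x in (0:ℝ)..1, x * R2 R g x) ≤ 1 / 2 := by
      refine le_trans ?_ hRi
      refine intervalIntegral.integral_mono_on (by norm_num) (Continuous.intervalIntegrable (by fun_prop) _ _)
        (Continuous.intervalIntegrable (by fun_prop) _ _) fun x hx => ?_
      exact mul_le_mul_of_nonneg_left (R2_leR hR0 g x) hx.1
    have a4 : Zq (R1 R g) c B εs τ (4 * τ) T ≤ 2 * (1 - εs) / τ * (∫ x in (0:ℝ)..1, x * R1 R g x) *
        (∫ ξ in (-1:ℝ)..1, B ξ ^ 2) + CD * (∫ ξ in (-1:ℝ)..1, B ξ ^ 2) + 1 :=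
      tZ1.trans (add_le_add (add_le_add le_rfl (hcd _ hI0).1) le_rfl)
    have a5 : Zq (R2 R g) c B εs τ (4 * τ) T ≤ 2 * (1 - εs) / τ * (∫ x in (0:ℝ)..1, x * R2 R g x) *
        (∫ ξ in (-1:ℝ)..1, B ξ ^ 2) + CD * (∫ ξ in (-1:ℝ)..1, B ξ ^ 2) + 1 :=
      tZ2.trans (add_le_add (add_le_add le_rfl (hcd _ hI0).2) le_rfl)
    have a6 : ∫ t in S, Dq (R1 R g) c B εs τ (4 * τ) T t ≤ (1 + g) * (volume.real S *
        Zq (R1 R g) c B εs τ (4 * τ) T + 2 * w * T + C7 * (C * N) ^ 4 / (τ * w) * T) + g * T := by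
      refine hlowS.trans (le_of_eq ?_)
      rw [hC7]
      ring
    have b2 : τ * (Real.pi * (q + 4)) ≤ g := hmon _ _ (by positivity) hτm2
    have b3 : τ * (20 * Real.pi * (q * CS * C ^ 2 * N)) ≤ g := hmon _ _ (by positivity) hτm3
    have b4 : τ * CD ≤ g := hmon _ _ hCD.le hτm4
    have b5 : τ * (C7 * Real.pi ^ 2 * C ^ 4 * N ^ 2) ≤ g ^ 2 := hmon _ _ (by positivity) hτm5
    obtain ⟨X0, hX0⟩ : ∃ X0 : ℝ, X0 = ∫ t in S, Sm ph U1 U2 ((N - N0) / (τ * L)) t := ⟨_, rfl⟩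
    rw [← hX0] at hblk ⊢
    have hfin := win_calcX (X := X0) (C := C) (CS := CS) (CD := CD) (C7 := C7)
      (K := C * N) (q := q) hA0 hAT hN1 hτ (hτa.trans hτ01) hg hg1 (hR0 0) hR02 hr1 a1 hr2 a2 hCD hCS hC hC70
      rfl hεs hε2 hw hM hI0 hW.sq a4 a5 a6 hhighS hq0 b2 b3 b4 b5 hER hblk
    obtain ⟨i1, hi1⟩ : ∃ i1 : ℝ, i1 = ∫ x in (0:ℝ)..1, x * R1 R g x := ⟨_, rfl⟩
    obtain ⟨i2, hi2⟩ : ∃ i2 : ℝ, i2 = ∫ x in (0:ℝ)..1, x * R2 R g x := ⟨_, rfl⟩
    rw [← hi1] at hfin hr1'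
    rw [← hi2] at hfin hr2'
    have k1 : volume.real S * ((R 0 + 2 * i1) * M) ≤ volume.real S *
        ((R 0 + 2 * ((∫ x in (0:ℝ)..1, x * R x) - ∫ x in (1/2:ℝ)..1, x * R x)) * M) := by
      refine mul_le_mul_of_nonneg_left (mul_le_mul_of_nonneg_right ?_ hM0.le) hA0
      linarith
    have k2 : T * (2 * i2) * M ≤ T * (2 * (∫ x in (1/2:ℝ)..1, x * R x)) * M + 10 * g * (T * M) := by
      have h2 : g * R 0 ≤ g * 5 := mul_le_mul_of_nonneg_left hR02 hg.le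
      have h3 : T * (2 * i2) * M ≤ T * (2 * (∫ x in (1/2:ℝ)..1, x * R x) + 10 * g) * M := by
        refine mul_le_mul_of_nonneg_right (mul_le_mul_of_nonneg_left ?_ hT0.le) hM0.le
        linarith
      linarith
    linarith
  · have hsm0 : ∫ t in (T + L)..(2 * T - L), ‖St B (τ * L) U1 U2 0 t - (Mu B (τ * L) L 0 : ℝ)‖ ^ 2 ≤
        CS * (C * N) ^ 2 * T := by
      have h2 := tSM U1 U2 hefd 0 le_rfl (by nlinarith)
      rw [zero_div, add_zero, mul_one] at h2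
      refine le_trans (le_of_eq ?_) h2
      refine intervalIntegral.integral_congr fun t _ => ?_
      beta_reduce
      congr 3
      simp
    have hblk := blockN (B := B) (K := C * N) (T := T) (U1 := U1) (U2 := U2) (L := L) (N0 := N0) (κ1 := κ1) (Y0 := Y0)
      (CS := CS) hW (by positivity) hτ tL tT (by linarith) hsm0 hS hSI
    have hfin : IsFiniteMeasure (volume.restrict S) := ⟨by
      rw [Measure.restrict_apply_univ]; exact lt_top_iff_ne_top.2 hSf⟩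
    have hX : ∫ t in S, |Sm (fun m => (m:ℝ)) U1 U2 ((N - N0) / (τ * L)) t - M| ≤
        (∫ t in S, |Sm (fun m => (m:ℝ)) U1 U2 ((N - N0) / (τ * L)) t - Mu B (τ * L) L 0|) +
          volume.real S * |Mu B (τ * L) L 0 - M| := by
      have hs := Sm_int (fun m => (m:ℝ)) U1 U2 ((N - N0) / (τ * L)) hSf
      have hc1 : ∀ x : ℝ, IntegrableOn (fun _ : ℝ => x) S := fun x => integrableOn_const hSf
      have hi1 : IntegrableOn (fun t => |Sm (fun m => (m:ℝ)) U1 U2 ((N - N0) / (τ * L)) t - Mu B (τ * L) L 0|) S :=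
        (hs.sub (hc1 _)).abs
      have h1 := setIntegral_mono_on (μ := volume) (s := S)
        (f := fun t => |Sm (fun m => (m:ℝ)) U1 U2 ((N - N0) / (τ * L)) t - M|)
        (g := fun t => |Sm (fun m => (m:ℝ)) U1 U2 ((N - N0) / (τ * L)) t - Mu B (τ * L) L 0| +
          |Mu B (τ * L) L 0 - M|) ((hs.sub (hc1 _)).abs) (hi1.add (hc1 _)) hS (fun t _ => abs_sub_le _ _ _)
      rw [integral_add hi1 (hc1 _), setIntegral_const, smul_eq_mul] at h1
      exact h1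
    have b1 : τ * (Real.pi * (C * (1 + CS))) ≤ g := hmon _ _ (by
      have : 0 < C := by linarith
      positivity) hτm1
    exact num_calc (C := C) (CS := CS) hA0 hAT hN1 hτ hg hC hCS rfl hε2 hM tMu b1 hER hX hblk

end

end Pool.Agent.K4H6.Qn
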