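import Pool.Agent.K4H6.Cov.Core
import Pool.Agent.K4H6.Qn.Ca
import Pool.Agent.Y248.SW.KER
import Pool.Agent.Y627.SW.ER1
import Pool.Agent.Y627.SW.MN
import Pool.Agent.Y840.SW.MVB
import Pool.Agent.Y240.SW.DF
import Pool.Agent.Y228.SW.EF
import Pool.Agent.Y274.SW.SM
import Pool.Agent.Y655.SW.Ers

set_option autoImplicit false

/-! Isolated simple zeros near arbitrary sets of heights: the main inequality. -/

namespace Pool.Agent.K4H6.Qn

open Filter Topology MeasureTheory Complex H370 TH803UC TH803CL Pool.Agent.Y745.SW Pool.Agent.K4H6.Cov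

noncomputable section

/-- **the main inequality**: isolated simple zeros near an arbitrary set of heights -/
theorem coreS {kt : ℂ → ℂ} {R : ℝ → ℝ} (hk0 : Ker kt R) (hR02 : R 0 ≤ 2)
    (hRi : (∫ x in (0:ℝ)..1, x * R x) ≤ 1 / 2) {g : ℝ} (hg : 0 < g) (hg1 : g ≤ 1 / 1000) :
    ∃ δ τm N : ℝ, 0 < δ ∧ δ ≤ 1 / 10 ∧ 0 < τm ∧ 1 ≤ N ∧ ∀ τ : ℝ, 0 < τ → τ ≤ τm →
      ∀ (c : ℕ → ℂ) (C0 : ℝ), (∀ n, ‖c n‖ ≤ ArithmeticFunction.vonMangoldt n) →
      ∀ᶠ T : ℝ in atTop, ∀ U1 U2 : ℝ, EFD c C0 T U1 U2 → ∀ S : Set ℝ, MeasurableSet S →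
        S ⊆ Set.Icc (T + Real.log T) (2 * T - Real.log T) →
        volume.real S * (2 - R 0 - 2 * ((∫ x in (0:ℝ)..1, x * R x) - ∫ x in (1/2:ℝ)..1, x * R x)) *
          (N / (Real.pi * τ)) ≤
          (∫ t in S, (((isoS U1 U2 (δ / Real.log T)).filter (fun s => |s.im - t| ≤ N / (τ * Real.log T))).card : ℝ)) +
          T * (2 * (∫ x in (1/2:ℝ)..1, x * R x) + 60 * g) * (N / (Real.pi * τ)) := by
  classical
  have hζ : GoodL riemannZeta := good_zeta
  have hKER : P_KER := Pool.Agent.Y248.SW.t_KER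
  have hERS : P_ERS := Pool.Agent.Y655.SW.t_ERS Pool.Agent.Y627.SW.t_ER1
  have hMN : P_MN := Pool.Agent.Y627.SW.t_MN
  have hDF : P_DF := Pool.Agent.Y240.SW.t_DF
  have hEF : P_EF := Pool.Agent.Y228.SW.t_EF
  have hSM : P_SM := Pool.Agent.Y274.SW.t_SM Pool.Agent.Y840.SW.t_MVB hEF
  have hMV : P_MVB := Pool.Agent.Y840.SW.t_MVB
  obtain ⟨j, τ0, hτ0, hτ01, hE⟩ := hERS
  obtain ⟨C, hC, hB⟩ := hKER j
  have hRc := hk0.rcont
  have hR0 := hk0.rnonneg
  have hRm := hk0.rle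
  have hθ : 0 < g := hg
  have hR1c := R1_cont hRc g
  have hR2c := R2_cont hRc g
  obtain ⟨CD1, hCD1, hDF1⟩ := hDF (R1 R g) hR1c (fun x _ => R1_nonneg hR0 g x) (R1_lip hR0 hRm hk0.rlip hθ)
  obtain ⟨CD2, hCD2, hDF2⟩ := hDF (R2 R g) hR2c (fun x _ => R2_nonneg hR0 g x) (R2_lip hR0 hRm hk0.rlip hθ)
  obtain ⟨CS, hCS, hSM⟩ := hSM
  have hpi := Real.pi_pos
  have h1c := Pool.Agent.Y274.SW.c1_pos
  set ε2 : ℝ := g / (10 * Real.pi) with hε2
  obtain ⟨κ1, Y0, η1, N0, N1, hY0, hη10, hη11, hN0, hN1, hN01, hE⟩ := hE C hC ε2 (by positivity)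
  obtain ⟨B, hW⟩ := hB N1 hN1
  obtain ⟨δ, hδ, hδ1, hker⟩ := kt_near hk0.kcont hk0.kzero hη10
  set N := N1 with hN
  set εs : ℝ := g with hεs
  set q : ℝ := (1 + 1 / g) * (2 * R 0) with hq
  have hq0 : 0 ≤ q := mul_nonneg (by positivity) (mul_nonneg (by norm_num) (hR0 0))
  have hN0' : 0 < N := by linarith
  set CD : ℝ := CD1 + CD2 with hCDd
  set C7 : ℝ := 72 * Pool.Agent.Y274.SW.c1 ^ 2 * R 0 ^ 2 with hC7
  have hC70 : 0 ≤ C7 := by positivity
  -- the range of `τ`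
  obtain ⟨τm, hτm, hτma, hτmb, hτm1, hτm2, hτm3, hτm4, hτm5⟩ : ∃ τm : ℝ, 0 < τm ∧ τm ≤ τ0 ∧ τm ≤ εs / 4 ∧
      τm * (Real.pi * (C * (1 + CS))) ≤ g ∧ τm * (Real.pi * (q + 4)) ≤ g ∧
      τm * (20 * Real.pi * (q * CS * C ^ 2 * N)) ≤ g ∧ τm * CD ≤ g ∧
      τm * (C7 * Real.pi ^ 2 * C ^ 4 * N ^ 2) ≤ g ^ 2 := by
    have hC0 : 0 < C := by linarith
    exact tau_choice hτ0 (by positivity) hg (by linarith) (by positivity) (by positivity) (by positivity)
      (by positivity) (by positivity)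
  refine ⟨δ, τm, N, hδ, hδ1, hτm, hN1, ?_⟩
  intro τ hτ hττ c C0 hc
  have hτa : τ ≤ τ0 := hττ.trans hτma
  have hτb : τ ≤ εs / 4 := hττ.trans hτmb
  have hεs0 : 0 < εs := hg
  have hεs2 : εs < 1 / 2 := by linarith
  have hmon : ∀ x y : ℝ, 0 ≤ x → τm * x ≤ y → τ * x ≤ y := fun x y hx h =>
    (mul_le_mul_of_nonneg_right hττ hx).trans h
  have hZq1 := Zq_le (c := c) hW.cont (ε := εs) (τ := τ) (ηs := 4 * τ) hεs0 hεs2 hτ hτb
    le_rfl (by linarith) hDF hR1c (fun x _ => R1_nonneg hR0 g x) (R1_lip hR0 hRm hk0.rlip hθ) hW.even hc hDF1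
  have hZq2 := Zq_le (c := c) hW.cont (ε := εs) (τ := τ) (ηs := 4 * τ) hεs0 hεs2 hτ hτb
    le_rfl (by linarith) hDF hR2c (fun x _ => R2_nonneg hR0 g x) (R2_lip hR0 hRm hk0.rlip hθ) hW.even hc hDF2
  obtain ⟨C1, hC1, hEF⟩ := hEF εs τ hεs0 hεs2 hτ hτb c C0
  have hEF := hEF B (C * N) hW.cont hW.even hW.bd
  have hSM := hSM εs τ hεs0 hεs2 hτ hτb c C0 B (C * N) hW.cont hW.even hW.bd
  have hE := hE N τ le_rfl hτ hτa B hW
  set M : ℝ := N / (Real.pi * τ) with hM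
  have hM0 : 0 < M := by positivity
  set w : ℝ := g * M with hw
  have hw0 : 0 < w := by positivity
  have hlow := low hMV hR1c (fun y => R1_nonneg hR0 g y) (fun y => (R1_leR hR0 g y).trans (hRm y))
    (fun y hy => by unfold R1; rw [chi_zero hθ hy, mul_zero]) hc hW.cont hW.bd hεs0 hεs2 hτ hτb hg hw0
  have hhigh := high hMV hR2c (fun y => R2_nonneg hR0 g y) (c := c) hW.cont hεs0 hεs2 hτ hτb hg
  -- the main term
  have hMu : ∀ᶠ T : ℝ in atTop, (1 - g) * M ≤ Mu B (τ * Real.log T) (Real.log T) 0 := by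
    have h1 := (Mu_lim hW.cont hτ).comp Real.tendsto_log_atTop
    rw [hW.zero] at h1
    refine (h1.eventually_const_le ?_)
    have h2 : N / Real.pi / τ = M := by rw [hM, div_div]
    rw [h2]
    nlinarith
  have hlog := Real.tendsto_log_atTop
  have hTl : ∀ᶠ T : ℝ in atTop, T + Real.log T ≤ 2 * T - Real.log T := by
    have h1 := Real.isLittleO_log_id_atTop.def (c := 1 / 2) (by norm_num)
    filter_upwards [h1, eventually_ge_atTop 1] with T hT hT1
    rw [Real.norm_eq_abs, Real.norm_eq_abs, id, abs_of_pos (by linarith : 0 < T)] at hT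
    have := le_abs_self (Real.log T)
    linarith
  have hsm1 : ∀ᶠ T : ℝ in atTop, C1 * (C * N) / Real.log T ≤ 1 / 2 := by
    filter_upwards [hlog.eventually_ge_atTop (2 * (C1 * (C * N)) + 1)] with T hT
    have h0 : 0 ≤ C1 * (C * N) := by positivity
    rw [div_le_iff₀ (by linarith)]
    linarith
  have hsm2 : ∀ᶠ T : ℝ in atTop, 2 * (C * N) * (Real.log T * Real.exp (-(τ * Real.log T) ^ 2 / 2)) ≤ 1 / 2 :=
    hlog.eventually (tail_ev (C * N) τ hτ)
  filter_upwards [hZq1, hZq2, hEF, hSM, hE, hMu, hTl, hsm1, hsm2, hlog.eventually_ge_atTop 10, eventually_ge_atTop 1,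
    hlow, hhigh]
    with T tZ1 tZ2 tEF tSM tE tMu tT t1 t2 tL tT1 tlow thigh
  intro U1 U2 hefd S hS hSI
  set L := Real.log T with hL
  have hL0 : 0 < L := by linarith
  have hT0 : 0 < T := by linarith
  have hDI : P_DIk kt := t_DIk hk0
  have hTRK : P_TRKk kt R := t_TRKk hk0
  have hblk := blockK hk0 (B := B) (c := c) (ε := εs) (τ := τ) (η := g) (K := C * N) (T := T) (U1 := U1) (U2 := U2)
    hDI hTRK hMN hζ hW (by linarith) (by positivity) hεs0 hεs2 hτ hτb hg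
    (L := L) (δ := δ) (η1 := η1) (N0 := N0) (κ1 := κ1) (Y0 := Y0) (CS := CS) (ε2 := ε2) hL tL tT
    (by linarith [hefd.h1]) hδ hδ1 hη10.le hη11 (by linarith) hY0 ?_ ?_ ?_ hCS ?_ ?_ hS hSI
  · -- final computation
    have hA0 : 0 ≤ volume.real S := measureReal_nonneg
    have hSf : volume S ≠ ⊤ := ne_top_of_le_ne_top (by simp) (measure_mono hSI)
    have hAT : volume.real S ≤ T := by
      have h1 : volume.real S ≤ volume.real (Set.Icc (T + L) (2 * T - L)) :=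
        measureReal_mono hSI (by simp)
      rw [Real.volume_real_Icc_of_le tT] at h1
      linarith
    have hI0 : 0 ≤ ∫ ξ in (-1:ℝ)..1, B ξ ^ 2 :=
      intervalIntegral.integral_nonneg (by norm_num) fun x _ => sq_nonneg _
    have hr1 : 0 ≤ ∫ x in (0:ℝ)..1, x * R1 R g x :=
      intervalIntegral.integral_nonneg (by norm_num) fun x hx => mul_nonneg hx.1 (R1_nonneg hR0 g x)
    have hr2 : 0 ≤ ∫ x in (0:ℝ)..1, x * R2 R g x :=
      intervalIntegral.integral_nonneg (by norm_num) fun x hx => mul_nonneg hx.1 (R2_nonneg hR0 g x)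
    have hr1' := R1_int hRc hR0 hθ
    have hr2' := R2_int hRc hR0 hRm hθ (by linarith)
    have hhalf0 : 0 ≤ ∫ x in (1/2:ℝ)..1, x * R x :=
      intervalIntegral.integral_nonneg (by norm_num) fun x hx => mul_nonneg (by linarith [hx.1]) (hR0 x)
    have hlow0 : 0 ≤ (∫ x in (0:ℝ)..1, x * R x) - ∫ x in (1/2:ℝ)..1, x * R x := hr1.trans hr1'
    have hgR : g * R 0 ≤ 1 / 50 := (mul_le_mul hg1 hR02 (hR0 0) (by norm_num)).trans (by norm_num)
    -- the weights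
    have hDcS : ∀ Q : ℝ → ℝ, Continuous Q → IntegrableOn (fun t : ℝ => Dq Q c B εs τ (4 * τ) T t) S := by
      intro Q hQ
      have h1 : Continuous (fun t : ℝ => Dq Q c B εs τ (4 * τ) T t) :=
        Dq_cont hW.cont hεs0 hεs2 hτ hτb le_rfl (by linarith) hQ hL0
      exact (h1.continuousOn.integrableOn_compact isCompact_Icc).mono_set hSI
    have hsplit : ∫ t in S, Dq R c B εs τ (4 * τ) T t =
        (∫ t in S, Dq (R1 R g) c B εs τ (4 * τ) T t) + ∫ t in S, Dq (R2 R g) c B εs τ (4 * τ) T t := by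
      rw [← integral_add (hDcS _ hR1c) (hDcS _ hR2c)]
      refine integral_congr_ae (Filter.Eventually.of_forall fun t => ?_)
      exact Dq_split hRc hW.cont hεs0 hεs2 hτ hτb hL0 g t
    rw [hsplit] at hblk
    have hlowS := tlow S hS hSI
    have hhighS := thigh S hSI
    have hcd : ∀ x : ℝ, 0 ≤ x → CD1 * x ≤ CD * x ∧ CD2 * x ≤ CD * x := by
      intro x hx
      constructor
      · exact mul_le_mul_of_nonneg_right (by rw [hCDd]; linarith) hx
      · exact mul_le_mul_of_nonneg_right (by rw [hCDd]; linarith) hx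
    have a1 : (∫ x in (0:ℝ)..1, x * R1 R g x) ≤ 1 / 2 :=
      hr1'.trans ((sub_le_self _ hhalf0).trans hRi)
    have a2 : (∫ x in (0:ℝ)..1, x * R2 R g x) ≤ 1 / 2 := by
      refine le_trans ?_ hRi
      refine intervalIntegral.integral_mono_on (by norm_num) (Continuous.intervalIntegrable (by fun_prop) _ _)
        (Continuous.intervalIntegrable (by fun_prop) _ _) fun x hx => ?_
      exact mul_le_mul_of_nonneg_left (R2_leR hR0 g x) hx.1
    have a3 : 0 < CD := add_pos hCD1 hCD2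
    have a4 : Zq (R1 R g) c B εs τ (4 * τ) T ≤ 2 * (1 - εs) / τ * (∫ x in (0:ℝ)..1, x * R1 R g x) *
        (∫ ξ in (-1:ℝ)..1, B ξ ^ 2) + CD * (∫ ξ in (-1:ℝ)..1, B ξ ^ 2) + 1 :=
      tZ1.trans (add_le_add (add_le_add le_rfl (hcd _ hI0).1) le_rfl)
    have a5 : Zq (R2 R g) c B εs τ (4 * τ) T ≤ 2 * (1 - εs) / τ * (∫ x in (0:ℝ)..1, x * R2 R g x) *
        (∫ ξ in (-1:ℝ)..1, B ξ ^ 2) + CD * (∫ ξ in (-1:ℝ)..1, B ξ ^ 2) + 1 :=
      tZ2.trans (add_le_add (add_le_add le_rfl (hcd _ hI0).2) le_rfl)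
    have a6 : ∫ t in S, Dq (R1 R g) c B εs τ (4 * τ) T t ≤ (1 + g) * (volume.real S *
        Zq (R1 R g) c B εs τ (4 * τ) T + 2 * w * T + C7 * (C * N) ^ 4 / (τ * w) * T) + g * T := by
      refine hlowS.trans (le_of_eq ?_)
      rw [hC7]
      ring
    have b1 : τ * (Real.pi * (C * (1 + CS))) ≤ g := hmon _ _ (by positivity) hτm1
    have b2 : τ * (Real.pi * (q + 4)) ≤ g := hmon _ _ (by positivity) hτm2
    have b3 : τ * (20 * Real.pi * (q * CS * C ^ 2 * N)) ≤ g := hmon _ _ (by positivity) hτm3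
    have b4 : τ * CD ≤ g := hmon _ _ a3.le hτm4
    have b5 : τ * (C7 * Real.pi ^ 2 * C ^ 4 * N ^ 2) ≤ g ^ 2 := hmon _ _ (by positivity) hτm5
    have hfin := cov_calcX (C := C) (CS := CS) (CD := CD) (C7 := C7) (K := C * N) hA0 hAT hN1 hτ (hτa.trans hτ01)
      hg hg1 (hR0 0) hR02 hr1 a1 hr2 a2 a3 hCS hC hC70 rfl hεs hε2 hw hM hI0 hW.sq tMu a4 a5 a6 hhighS hq0
      b1 b2 b3 b4 b5 hblk
    have k1 : volume.real S * (2 - R 0 - 2 * ((∫ x in (0:ℝ)..1, x * R x) - ∫ x in (1/2:ℝ)..1, x * R x)) * M ≤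
        volume.real S * (2 - R 0 - 2 * ∫ x in (0:ℝ)..1, x * R1 R g x) * M :=
      mul_le_mul_of_nonneg_right
        (mul_le_mul_of_nonneg_left (sub_le_sub_left (mul_le_mul_of_nonneg_left hr1' (by norm_num)) _) hA0) hM0.le
    have k2 : T * (2 * (∫ x in (0:ℝ)..1, x * R2 R g x) + 50 * g) * M ≤
        T * (2 * (∫ x in (1/2:ℝ)..1, x * R x) + 60 * g) * M := by
      refine mul_le_mul_of_nonneg_right (mul_le_mul_of_nonneg_left ?_ hT0.le) hM0.le
      have : g * R 0 ≤ g * 2 := mul_le_mul_of_nonneg_left hR02 hg.le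
      clear hfin hblk hlowS hhighS a6 a5 a4
      linarith
    exact k1.trans (hfin.trans (add_le_add le_rfl k2))
  · intro u hu
    refine hker _ ?_
    rw [norm_mul, Complex.norm_real, Real.norm_eq_abs, abs_of_nonneg (mul_nonneg (by linarith) hL0.le)]
    have h1 : (1 - εs) * L * ‖u‖ ≤ 1 * L * (6 * (δ / L)) := by
      have h2 : 1 - εs ≤ 1 := by linarith
      have h3 : 0 ≤ 1 - εs := by linarith
      gcongr
    refine h1.trans (le_of_eq ?_)
    field_simp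
  · intro t u h1 h2 h3 h4
    exact (tEF U1 U2 hefd t u h1 h2 h3 h4).trans t1
  · intro u hu
    exact (Mu_small hW.cont hW.bd (mul_pos hτ hL0) hL0 hu).trans t2
  · intro u h3 h4
    exact tSM U1 U2 hefd u h3 h4
  · exact tE (δ / L) (by positivity) (by gcongr; linarith) U1 U2 hefd.h1 hefd.h4 (T + L) (2 * T - L) tT

end

end Pool.Agent.K4H6.Qn
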