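import Pool.Agent.K4H6.Qn.Cd
import Pool.Agent.K4H6.Win.Sh

set_option autoImplicit false

/-! Multiplicities in arbitrary sets of heights, all window lengths. -/

namespace Pool.Agent.K4H6.Qn

open Filter Topology MeasureTheory Complex H370 TH803UC TH803CL Pool.Agent.Y745.SW Pool.Agent.K4H6.Cov
  Pool.Agent.K4H6.Win

noncomputable section

lemma calcU {A T H r M E κ a b g G : ℝ} (hA0 : 0 ≤ A) (hAT : A ≤ T) (hr : 0 < r) (hH : 0 < H) (hE0 : 0 ≤ E)
    (hM0 : 0 ≤ M) (hE : H * M = 2 * r * E * κ) (hκ : κ ≤ 1 + 2 * g) (hg : 0 < g) (hg1 : g ≤ 1 / 1000)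
    (hrH : 3 * r ≤ g * H) (ha : 0 ≤ a) (ha6 : a ≤ 6) (hb : 0 ≤ b) (hb1 : b ≤ 1)
    (h : 2 * r * G ≤ (H + 3 * r) * (A * (a * M) + T * b * M + 70 * g * (T * M))) :
    G ≤ (A * a + T * (b + 110 * g)) * E := by
  have hT0 : 0 ≤ T := hA0.trans hAT
  obtain ⟨P, hP⟩ : ∃ P, P = A * a + T * b + 70 * g * T := ⟨_, rfl⟩
  have hP0 : 0 ≤ P := by rw [hP]; positivity
  have hP8 : P ≤ 8 * T := by
    have h1 : A * a ≤ T * 6 := mul_le_mul hAT ha6 ha hT0
    have h2 : T * b ≤ T * 1 := mul_le_mul_of_nonneg_left hb1 hT0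
    have h3 : 70 * g * T ≤ 1 * T := mul_le_mul_of_nonneg_right (by linarith) hT0
    rw [hP]
    linarith
  have h1 : (H + 3 * r) * (A * (a * M) + T * b * M + 70 * g * (T * M)) = (H + 3 * r) * (P * M) := by
    rw [hP]; ring
  rw [h1] at h
  have h2 : (H + 3 * r) * (P * M) ≤ (1 + g) * H * (P * M) :=
    mul_le_mul_of_nonneg_right (by linarith) (by positivity)
  have h3 : (1 + g) * H * (P * M) = 2 * r * ((1 + g) * κ * (P * E)) := by
    calc (1 + g) * H * (P * M) = (1 + g) * P * (H * M) := by ring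
      _ = _ := by rw [hE]; ring
  have h4 : G ≤ (1 + g) * κ * (P * E) := by
    have h5 : 2 * r * G ≤ 2 * r * ((1 + g) * κ * (P * E)) := by linarith
    exact le_of_mul_le_mul_left h5 (by linarith)
  have hPE : 0 ≤ P * E := by positivity
  have h5 : (1 + g) * κ ≤ 1 + 4 * g := by
    have h6 : (1 + g) * κ ≤ (1 + g) * (1 + 2 * g) := mul_le_mul_of_nonneg_left hκ (by linarith)
    nlinarith
  have h6 : (1 + g) * κ * (P * E) ≤ (1 + 4 * g) * (P * E) := mul_le_mul_of_nonneg_right h5 hPE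
  have h7 : 4 * g * (P * E) ≤ 4 * g * (8 * T * E) :=
    mul_le_mul_of_nonneg_left (mul_le_mul_of_nonneg_right hP8 hE0) (by positivity)
  have h8 : 0 ≤ g * (T * E) := by positivity
  have h9 : (A * a + T * (b + 110 * g)) * E = P * E + 40 * (g * (T * E)) := by rw [hP]; ring
  rw [h9]
  linarith

lemma calcV {A T H r M E κ g G D : ℝ} (hA0 : 0 ≤ A) (hAT : A ≤ T) (hr : 0 < r) (hH : 0 < H) (hE0 : 0 ≤ E)
    (hM0 : 0 ≤ M) (hE : H * M = 2 * r * E * κ) (hκ : κ ≤ 1 + 2 * g) (hκ0 : 1 ≤ κ) (hg : 0 < g) (hg1 : g ≤ 1 / 1000)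
    (hrH : 3 * r ≤ g * H) (hD : |2 * r * G - A * (H * M)| ≤ D)
    (h : D ≤ A * (3 * r * M) + (H + 3 * r) * (3 * g * (T * M))) :
    |G - A * E| ≤ 10 * g * T * E := by
  have hT0 : 0 ≤ T := hA0.trans hAT
  have hgT : 0 ≤ g * (T * E) := by positivity
  have h1 : A * (3 * r * M) ≤ T * (g * H * M) :=
    mul_le_mul hAT (mul_le_mul_of_nonneg_right hrH hM0) (by positivity) hT0
  have h2 : (H + 3 * r) * (3 * g * (T * M)) ≤ (1 + g) * H * (3 * g * (T * M)) :=
    mul_le_mul_of_nonneg_right (by linarith) (by positivity)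
  have h3 : T * (g * H * M) = 2 * r * (g * (T * E) * κ) := by
    calc T * (g * H * M) = T * g * (H * M) := by ring
      _ = _ := by rw [hE]; ring
  have h4 : (1 + g) * H * (3 * g * (T * M)) = 2 * r * ((1 + g) * 3 * (g * (T * E)) * κ) := by
    calc (1 + g) * H * (3 * g * (T * M)) = (1 + g) * 3 * g * T * (H * M) := by ring
      _ = _ := by rw [hE]; ring
  have h5 : A * (H * M) = 2 * r * (A * E * κ) := by rw [hE]; ring
  have h6 : |2 * r * G - A * (H * M)| = 2 * r * |G - A * E * κ| := by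
    rw [h5, ← mul_sub, abs_mul, abs_of_pos (by linarith)]
  rw [h6] at hD
  have h7 : 2 * r * |G - A * E * κ| ≤ 2 * r * ((1 + (1 + g) * 3) * (g * (T * E)) * κ) := by
    linarith
  have h8 : |G - A * E * κ| ≤ (1 + (1 + g) * 3) * (g * (T * E)) * κ := le_of_mul_le_mul_left h7 (by linarith)
  have h9 : (1 + (1 + g) * 3) * (g * (T * E)) * κ ≤ 5 * (g * (T * E)) := by
    have h10 : (1 + (1 + g) * 3) * κ ≤ (1 + (1 + g) * 3) * (1 + 2 * g) :=
      mul_le_mul_of_nonneg_left hκ (by linarith)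
    have h11 : (1 + (1 + g) * 3) * (1 + 2 * g) ≤ 5 := by nlinarith
    calc (1 + (1 + g) * 3) * (g * (T * E)) * κ = (1 + (1 + g) * 3) * κ * (g * (T * E)) := by ring
      _ ≤ 5 * (g * (T * E)) := mul_le_mul_of_nonneg_right (h10.trans h11) hgT
  have h10 : |A * E * κ - A * E| ≤ 2 * (g * (T * E)) := by
    have e : A * E * κ - A * E = A * E * (κ - 1) := by ring
    have h12 : 0 ≤ A * E := by positivity
    rw [e, abs_of_nonneg (mul_nonneg h12 (by linarith))]
    have h13 : A * E * (κ - 1) ≤ A * E * (2 * g) := mul_le_mul_of_nonneg_left (by linarith) h12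
    have h14 : A * E * (2 * g) ≤ T * E * (2 * g) :=
      mul_le_mul_of_nonneg_right (mul_le_mul_of_nonneg_right hAT hE0) (by linarith)
    linarith
  have h11 := abs_sub_le G (A * E * κ) (A * E)
  linarith

/-- **multiplicities in arbitrary sets of heights**, local form -/
theorem arbD {kt : ℂ → ℂ} {R : ℝ → ℝ} (hk0 : Ker kt R) (hR02 : R 0 ≤ 5)
    (hRi : (∫ x in (0:ℝ)..1, x * R x) ≤ 1 / 2) {ε : ℝ} (hε : 0 < ε) (hε1 : ε ≤ 1 / 10) :
    ∃ h0 : ℝ, 0 < h0 ∧ ∀ᶠ T : ℝ in atTop,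
    ∃ U1 U2 : ℝ, T ≤ U1 ∧ U1 ≤ T + 1 ∧ 2 * T - 1 ≤ U2 ∧ U2 ≤ 2 * T ∧ ∀ H : ℝ, h0 / Real.log T ≤ H →
    ∀ S : Set ℝ, MeasurableSet S → S ⊆ Set.Icc (T + 3 * Real.log T) (2 * T - 3 * Real.log T - H) →
      ∫ t in S, Gm ph U1 U2 H t ≤
        (volume.real S * (R 0 + 2 * ((∫ x in (0:ℝ)..1, x * R x) - ∫ x in (1/2:ℝ)..1, x * R x)) +
          T * (2 * (∫ x in (1/2:ℝ)..1, x * R x) + ε)) * (H * Real.log T / (2 * Real.pi)) ∧
      |(∫ t in S, Gm (fun m => m) U1 U2 H t) - volume.real S * (H * Real.log T / (2 * Real.pi))| ≤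
        ε * T * (H * Real.log T / (2 * Real.pi)) := by
  have hpi := Real.pi_pos
  obtain ⟨g, hgd⟩ : ∃ g : ℝ, g = ε / 110 := ⟨_, rfl⟩
  have hg : 0 < g := by rw [hgd]; positivity
  have hg1 : g ≤ 1 / 1000 := by rw [hgd]; linarith
  obtain ⟨τ, N, N0, hτ, hN, hN0, hN0g, hcore⟩ := coreD hk0 hR02 hRi hg hg1
  obtain ⟨c, hc, C0, T0, hC0, hT0, hef⟩ := explicit_formula good_zeta
  have hcore := hcore τ hτ le_rfl c C0 hc
  obtain ⟨ν, hν⟩ : ∃ ν : ℝ, ν = N - N0 := ⟨_, rfl⟩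
  have hνN : (1 - g) * N ≤ ν := by rw [hν]; linarith
  have hν0 : 0 < ν := lt_of_lt_of_le (mul_pos (by linarith) (by linarith)) hνN
  have hνle : ν ≤ N := by rw [hν]; linarith
  refine ⟨3 * ν / (τ * g), by positivity, ?_⟩
  filter_upwards [hcore, eventually_ge_atTop T0, eventually_gt_atTop 0,
    Real.tendsto_log_atTop.eventually_ge_atTop 10, Real.tendsto_log_atTop.eventually_ge_atTop (ν / τ)] with
    T tc tT0 tpos tL tν
  obtain ⟨U1, U2, hU1, hU1', hU2, hU2', heft⟩ := hef T tT0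
  refine ⟨U1, U2, hU1, hU1', hU2, hU2', fun H hH S hS hSI => ?_⟩
  have hefd : EFD c C0 T U1 U2 := ⟨hc, hU1, hU1', hU2, hU2', heft⟩
  have tc := tc U1 U2 hefd
  rw [← hν] at tc
  set L := Real.log T with hL
  have hL0 : 0 < L := by linarith
  obtain ⟨r, hr⟩ : ∃ r : ℝ, r = ν / (τ * L) := ⟨_, rfl⟩
  have hr0 : 0 < r := by rw [hr]; positivity
  have hrL : r ≤ L := by
    have h1 : r ≤ ν / τ := by
      rw [hr]
      refine div_le_div_of_nonneg_left hν0.le hτ ?_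
      nlinarith
    linarith
  rw [← hr] at tc
  obtain ⟨M, hM⟩ : ∃ M : ℝ, M = N / (Real.pi * τ) := ⟨_, rfl⟩
  have hM0 : 0 < M := by rw [hM]; positivity
  rw [← hM] at tc
  have h3 : 3 * r ≤ g * H := by
    have h4 : g * (3 * ν / (τ * g) / L) ≤ g * H := mul_le_mul_of_nonneg_left hH hg.le
    have h5 : g * (3 * ν / (τ * g) / L) = 3 * r := by rw [hr]; field_simp
    linarith
  have hH0 : 0 < H := by
    by_contra hneg
    have : g * H ≤ 0 := mul_nonpos_of_nonneg_of_nonpos hg.le (not_lt.1 hneg)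
    linarith
  have h2r : 2 * r ≤ H := by nlinarith
  set E := H * L / (2 * Real.pi) with hE
  have hE0 : 0 < E := by positivity
  obtain ⟨κ, hκd⟩ : ∃ κ : ℝ, κ = N / ν := ⟨_, rfl⟩
  have hκ : H * M = 2 * r * E * κ := by
    rw [hM, hr, hE, hκd]
    field_simp
  have hκ1 : κ ≤ 1 + 2 * g := by
    rw [hκd, div_le_iff₀ hν0]
    have h4 : (1 + 2 * g) * ((1 - g) * N) ≤ (1 + 2 * g) * ν := mul_le_mul_of_nonneg_left hνN (by linarith)
    have h5 : 1 ≤ (1 + 2 * g) * (1 - g) := by nlinarith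
    have h6 : 1 * N ≤ (1 + 2 * g) * (1 - g) * N := mul_le_mul_of_nonneg_right h5 (by linarith)
    linarith
  have hκ0 : 1 ≤ κ := by
    rw [hκd, le_div_iff₀ hν0]
    linarith
  have hA0 : 0 ≤ volume.real S := measureReal_nonneg
  have hSf : volume S ≠ ⊤ := ne_top_of_le_ne_top (by simp) (measure_mono hSI)
  have hAT : volume.real S ≤ T := by
    have h1 : volume.real S ≤ volume.real (Set.Icc (T + 3 * L) (2 * T - 3 * L - H)) :=
      measureReal_mono hSI (by simp)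
    refine h1.trans ?_
    rcases le_total (T + 3 * L) (2 * T - 3 * L - H) with h4 | h4
    · rw [Real.volume_real_Icc_of_le h4]
      linarith
    · have : volume.real (Set.Icc (T + 3 * L) (2 * T - 3 * L - H)) = 0 := by
        rw [Real.volume_real_Icc, max_eq_right (by linarith)]
      rw [this]
      exact tpos.le
  obtain ⟨a, ha⟩ : ∃ a : ℝ, a = R 0 + 2 * ((∫ x in (0:ℝ)..1, x * R x) - ∫ x in (1/2:ℝ)..1, x * R x) := ⟨_, rfl⟩
  obtain ⟨b, hb⟩ : ∃ b : ℝ, b = 2 * (∫ x in (1/2:ℝ)..1, x * R x) := ⟨_, rfl⟩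
  have hhalf0 : 0 ≤ ∫ x in (1/2:ℝ)..1, x * R x :=
    intervalIntegral.integral_nonneg (by norm_num) fun x hx => mul_nonneg (by linarith [hx.1]) (hk0.rnonneg x)
  have hlow0 : 0 ≤ (∫ x in (0:ℝ)..1, x * R x) - ∫ x in (1/2:ℝ)..1, x * R x := by
    have hRc := hk0.rcont
    rw [← intervalIntegral.integral_add_adjacent_intervals (a := (0:ℝ)) (b := 1/2) (c := 1)
      (Continuous.intervalIntegrable (by fun_prop) _ _) (Continuous.intervalIntegrable (by fun_prop) _ _)]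
    have : 0 ≤ ∫ x in (0:ℝ)..(1/2), x * R x :=
      intervalIntegral.integral_nonneg (by norm_num) fun x hx => mul_nonneg hx.1 (hk0.rnonneg x)
    linarith
  have ha0 : 0 ≤ a := by
    rw [ha]
    have := hk0.rnonneg 0
    linarith
  have ha6 : a ≤ 6 := by rw [ha]; linarith
  have hb0 : 0 ≤ b := by rw [hb]; linarith
  have hb1 : b ≤ 1 := by rw [hb]; linarith
  rw [← ha, ← hb] at tc
  constructor
  · have h4 := long_C (f := ph) ph_nonneg (U1 := U1) (U2 := U2) (H := H) (r := r)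
      (A := volume.real S * (a * M) + T * b * M + 70 * g * (T * M)) (T1 := T + L) (T2 := 2 * T - L) hr0 hH0.le hS hSI
      (fun S' h5 h6 h7 => by
        have h8 := (tc S' h5 h6).1
        rw [h7] at h8
        exact h8) (by linarith) (by linarith)
    have h5 := calcU hA0 hAT hr0 hH0 hE0.le hM0.le hκ hκ1 hg hg1 h3 ha0 ha6 hb0 hb1 h4
    rw [← ha, ← hb]
    refine h5.trans (le_of_eq ?_)
    rw [hgd]
    ring
  · have h4 := long_N (U1 := U1) (U2 := U2) (H := H) (r := r) (M := M)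
      (A := 3 * g * (T * M)) (T1 := T + L) (T2 := 2 * T - L) hr0 h2r hM0.le hS hSI
      (fun S' h5 h6 _ => (tc S' h5 h6).2) (by linarith) (by linarith)
    have hG := Gm_int (fun m => (m:ℝ)) U1 U2 H hSf
    have hc1 : IntegrableOn (fun _ : ℝ => H * M) S := integrableOn_const hSf
    have h5 : |2 * r * (∫ t in S, Gm (fun m => (m:ℝ)) U1 U2 H t) - volume.real S * (H * M)| ≤
        ∫ t in S, |2 * r * Gm (fun m => (m:ℝ)) U1 U2 H t - H * M| := by
      have h6 := abs_integral_le_integral_abs (μ := volume.restrict S)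
        (f := fun t => 2 * r * Gm (fun m => (m:ℝ)) U1 U2 H t - H * M)
      rw [integral_sub (hG.const_mul _) hc1, integral_const_mul, setIntegral_const, smul_eq_mul] at h6
      exact h6
    have h6 := calcV hA0 hAT hr0 hH0 hE0.le hM0.le hκ hκ1 hκ0 hg hg1 h3 h5 h4
    refine h6.trans ?_
    have h7 : 10 * g ≤ ε := by rw [hgd]; linarith
    exact mul_le_mul_of_nonneg_right (mul_le_mul_of_nonneg_right h7 tpos.le) hE0.le

end

end Pool.Agent.K4H6.Qn
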