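import Pool.Agent.K4H6.Win.Sh

set_option autoImplicit false

/-! Zeros in arbitrary sets of heights: from one window length to all larger ones, lower bounds. -/

namespace Pool.Agent.K4H6.Qn

open Filter Topology MeasureTheory Complex H370 Pool.Agent.K4H6.Win

noncomputable section

/-- the number of elements with imaginary part in `(t, t + H]` -/
def Gi (F : Finset ℂ) (H t : ℝ) : ℝ := ∑ s ∈ F, if t < s.im ∧ s.im ≤ t + H then (1:ℝ) else 0

/-- the number of elements with imaginary part in `[t - r, t + r]` -/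
def Ci (F : Finset ℂ) (r t : ℝ) : ℝ := ∑ s ∈ F, if |s.im - t| ≤ r then (1:ℝ) else 0

lemma Ci_card (F : Finset ℂ) (r t : ℝ) : Ci F r t = ((F.filter (fun s => |s.im - t| ≤ r)).card : ℝ) := by
  unfold Ci
  rw [Finset.card_filter]
  push_cast
  rfl

lemma Gi_card (F : Finset ℂ) (H t : ℝ) :
    Gi F H t = ((F.filter (fun s => t < s.im ∧ s.im ≤ t + H)).card : ℝ) := by
  unfold Gi
  rw [Finset.card_filter]
  push_cast
  rfl

lemma Ci_meas (F : Finset ℂ) (r : ℝ) : Measurable (fun t : ℝ => Ci F r t) := by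
  unfold Ci
  refine Finset.measurable_sum _ fun s _ => ?_
  have hm : MeasurableSet {t : ℝ | |s.im - t| ≤ r} := (isClosed_le (by fun_prop) continuous_const).measurableSet
  exact Measurable.ite hm measurable_const measurable_const

lemma Gi_meas (F : Finset ℂ) (H : ℝ) : Measurable (fun t : ℝ => Gi F H t) := by
  unfold Gi
  refine Finset.measurable_sum _ fun s _ => ?_
  have hm : MeasurableSet {t : ℝ | t < s.im ∧ s.im ≤ t + H} :=
    (measurableSet_lt measurable_id measurable_const).inter
      (measurableSet_le measurable_const (measurable_id.add_const H))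
  exact Measurable.ite hm measurable_const measurable_const

lemma Ci_bdd (F : Finset ℂ) (r : ℝ) (t : ℝ) : |Ci F r t| ≤ F.card := by
  unfold Ci
  refine (Finset.abs_sum_le_sum_abs _ _).trans ?_
  have h1 : ∑ s ∈ F, |if |s.im - t| ≤ r then (1:ℝ) else 0| ≤ ∑ _s ∈ F, (1:ℝ) :=
    Finset.sum_le_sum fun s _ => by split_ifs <;> simp
  refine h1.trans (le_of_eq ?_)
  simp

lemma Gi_nonneg (F : Finset ℂ) (H t : ℝ) : 0 ≤ Gi F H t := by
  unfold Gi
  exact Finset.sum_nonneg fun s _ => by split_ifs <;> norm_num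

lemma Gi_le (F : Finset ℂ) (H t : ℝ) : Gi F H t ≤ F.card := by
  unfold Gi
  have h1 : ∑ s ∈ F, (if t < s.im ∧ s.im ≤ t + H then (1:ℝ) else 0) ≤ ∑ _s ∈ F, (1:ℝ) :=
    Finset.sum_le_sum fun s _ => by split_ifs <;> norm_num
  refine h1.trans (le_of_eq ?_)
  simp

lemma Gi_int (F : Finset ℂ) (H : ℝ) {S : Set ℝ} (hSf : volume S ≠ ⊤) :
    IntegrableOn (fun t : ℝ => Gi F H t) S := by
  have hfin : IsFiniteMeasure (volume.restrict S) := ⟨by
    rw [Measure.restrict_apply_univ]; exact lt_top_iff_ne_top.2 hSf⟩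
  refine Integrable.of_bound (C := F.card) (Gi_meas F H).aestronglyMeasurable ?_
  refine Filter.Eventually.of_forall fun t => ?_
  rw [Real.norm_eq_abs, abs_of_nonneg (Gi_nonneg _ _ _)]
  exact Gi_le _ _ _

/-- the long counts are at least the average of the short ones -/
lemma le_Gi (F : Finset ℂ) {H t r : ℝ} (hr : 0 < r) (hH : 2 * r ≤ H) :
    ∫ x in r..(H - r), Ci F r (t + x) ≤ 2 * r * Gi F H t := by
  unfold Gi Ci
  rw [intervalIntegral.integral_finsetSum (fun s _ => term_ii s.im r t _ _ _), Finset.mul_sum]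
  refine Finset.sum_le_sum fun s _ => ?_
  split_ifs with h
  · refine (term_le hr.le zero_le_one (by linarith)).trans (le_of_eq ?_)
    ring
  · rw [mul_zero]
    refine le_of_eq (term_zero (by linarith) ?_)
    by_cases h1 : t < s.im
    · have h2 : t + H < s.im := by
        by_contra h3
        exact h ⟨h1, not_lt.1 h3⟩
      right; linarith
    · left; linarith [not_lt.1 h1]

/-- the lower bound for long counts -/
lemma long_L (F : Finset ℂ) {H r A T1 T2 c d : ℝ} (hr : 0 < r) (hH : 2 * r ≤ H) {S : Set ℝ}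
    (hS : MeasurableSet S) (hSI : S ⊆ Set.Icc c d)
    (hA : ∀ S' : Set ℝ, MeasurableSet S' → S' ⊆ Set.Icc T1 T2 → volume.real S' = volume.real S →
      A ≤ ∫ t in S', Ci F r t) (h1 : T1 ≤ c) (h2 : d + H ≤ T2) :
    (H - 2 * r) * A ≤ 2 * r * ∫ t in S, Gi F H t := by
  have hSf : volume S ≠ ⊤ := ne_top_of_le_ne_top (by simp) (measure_mono hSI)
  have hm := Ci_meas F r
  have hb := Ci_bdd F r
  have hab : r ≤ H - r := by linarith
  have h3 := all_shift (F := fun t => - Ci F r t) (A := -A) hm.neg (C := F.card)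
    (fun u => by beta_reduce; rw [abs_neg]; exact hb u) hS hSf
    (a := r) (b := H - r) (T1 := T1) (T2 := T2) (c := c) (d := d) hab
    (fun S' h4 h5 h6 => by
      rw [integral_neg]
      exact neg_le_neg (hA S' h4 h5 h6)) hSI (by linarith) (by linarith)
  have e1 : ∀ t : ℝ, ∫ x in r..(H - r), -Ci F r (t + x) = -∫ x in r..(H - r), Ci F r (t + x) := fun t =>
    intervalIntegral.integral_neg
  simp_rw [e1] at h3
  rw [integral_neg] at h3
  have h4 : ∫ t in S, ∫ x in r..(H - r), Ci F r (t + x) ≤ ∫ t in S, 2 * r * Gi F H t :=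
    setIntegral_mono_on (inner_int hm hb hSf hab) ((Gi_int F H hSf).const_mul _) hS
      (fun t _ => le_Gi F hr hH)
  rw [integral_const_mul] at h4
  linarith

end

end Pool.Agent.K4H6.Qn
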