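import Pool.Agent.K4H6.Qn.Co
import Pool.Agent.K4H6.Qn.Lo

set_option autoImplicit false

/-! Isolated simple zeros near arbitrary sets of heights, all window lengths. -/

namespace Pool.Agent.K4H6.Qn

open Filter Topology MeasureTheory Complex H370 TH803UC TH803CL Pool.Agent.Y745.SW Pool.Agent.K4H6.Cov

noncomputable section

lemma calcL {A T H r M E a b g G : ℝ} (hA0 : 0 ≤ A) (hAT : A ≤ T) (hr : 0 < r) (hH : 0 < H) (hE0 : 0 ≤ E)
    (hE : H * M = 2 * r * E) (hg : 0 ≤ g) (hrH : 2 * r ≤ g * H) (ha : a ≤ 2) (hG : 0 ≤ G)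
    (h : (H - 2 * r) * ((A * a - T * b) * M) ≤ 2 * r * G) (hb : 0 ≤ b) :
    (A * a - T * (b + 2 * g)) * E ≤ G := by
  have hT0 : 0 ≤ T := hA0.trans hAT
  rcases le_total (A * a - T * b) 0 with h1 | h1
  · have h2 : A * a - T * (b + 2 * g) ≤ 0 := by
      have : 0 ≤ T * (2 * g) := by positivity
      linarith
    exact (mul_nonpos_of_nonpos_of_nonneg h2 hE0).trans hG
  · -- multiply by `2 r H`
    have h3 : (H - 2 * r) * (A * a - T * b) * (H * M) ≤ 2 * r * G * H := by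
      have := mul_le_mul_of_nonneg_right h hH.le
      linarith
    rw [hE] at h3
    have h4 : (H - 2 * r) * (A * a - T * b) * E ≤ G * H := by
      have h5 : 2 * r * ((H - 2 * r) * (A * a - T * b) * E) ≤ 2 * r * (G * H) := by linarith
      exact le_of_mul_le_mul_left h5 (by linarith)
    have h6 : A * a - T * b ≤ T * 2 := by
      have h7 : A * a ≤ A * 2 := mul_le_mul_of_nonneg_left ha hA0
      have h8 : A * 2 ≤ T * 2 := mul_le_mul_of_nonneg_right hAT (by norm_num)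
      have h9 : 0 ≤ T * b := mul_nonneg hT0 hb
      linarith
    have h10 : 2 * r * (A * a - T * b) ≤ g * H * (T * 2) :=
      mul_le_mul hrH h6 h1 (by positivity)
    have h11 : H * ((A * a - T * (b + 2 * g)) * E) ≤ H * G := by
      have h12 : 2 * r * (A * a - T * b) * E ≤ g * H * (T * 2) * E := mul_le_mul_of_nonneg_right h10 hE0
      linarith
    exact le_of_mul_le_mul_left h11 hH

/-- **isolated simple zeros near arbitrary sets of heights**, local form -/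
theorem arbS {kt : ℂ → ℂ} {R : ℝ → ℝ} (hk0 : Ker kt R) (hR02 : R 0 ≤ 2)
    (hRi : (∫ x in (0:ℝ)..1, x * R x) ≤ 1 / 2) {ε : ℝ} (hε : 0 < ε) (hε1 : ε ≤ 1 / 20) :
    ∃ δ h0 : ℝ, 0 < δ ∧ δ ≤ 1 / 10 ∧ 0 < h0 ∧ ∀ᶠ T : ℝ in atTop,
    ∃ U1 U2 : ℝ, T ≤ U1 ∧ U1 ≤ T + 1 ∧ 2 * T - 1 ≤ U2 ∧ U2 ≤ 2 * T ∧ ∀ H : ℝ, h0 / Real.log T ≤ H →
    ∀ S : Set ℝ, MeasurableSet S → S ⊆ Set.Icc (T + Real.log T) (2 * T - Real.log T - H) →
      (volume.real S * (2 - R 0 - 2 * ((∫ x in (0:ℝ)..1, x * R x) - ∫ x in (1/2:ℝ)..1, x * R x)) -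
        T * (2 * (∫ x in (1/2:ℝ)..1, x * R x) + ε)) * (H * Real.log T / (2 * Real.pi)) ≤
      ∫ t in S, Gi (isoS U1 U2 (δ / Real.log T)) H t := by
  have hpi := Real.pi_pos
  obtain ⟨g, hgd⟩ : ∃ g : ℝ, g = ε / 62 := ⟨_, rfl⟩
  have hg : 0 < g := by rw [hgd]; positivity
  have hg1 : g ≤ 1 / 1000 := by rw [hgd]; linarith
  obtain ⟨δ, τ, N, hδ, hδ1, hτ, hN, hcore⟩ := coreS hk0 hR02 hRi hg hg1
  obtain ⟨c, hc, C0, T0, hC0, hT0, hef⟩ := explicit_formula good_zeta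
  have hcore := hcore τ hτ le_rfl c C0 hc
  have hN0 : 0 < N := by linarith
  refine ⟨δ, 2 * N / (τ * g), hδ, hδ1, by positivity, ?_⟩
  filter_upwards [hcore, eventually_ge_atTop T0, eventually_gt_atTop 0,
    Real.tendsto_log_atTop.eventually_ge_atTop 10] with T tc tT0 tpos tL
  obtain ⟨U1, U2, hU1, hU1', hU2, hU2', heft⟩ := hef T tT0
  refine ⟨U1, U2, hU1, hU1', hU2, hU2', fun H hH S hS hSI => ?_⟩
  have hefd : EFD c C0 T U1 U2 := ⟨hc, hU1, hU1', hU2, hU2', heft⟩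
  have tc := tc U1 U2 hefd
  set L := Real.log T with hL
  have hL0 : 0 < L := by linarith
  obtain ⟨r, hr⟩ : ∃ r : ℝ, r = N / (τ * L) := ⟨_, rfl⟩
  have hr0 : 0 < r := by rw [hr]; positivity
  rw [← hr] at tc
  obtain ⟨M, hM⟩ : ∃ M : ℝ, M = N / (Real.pi * τ) := ⟨_, rfl⟩
  have hM0 : 0 < M := by rw [hM]; positivity
  rw [← hM] at tc
  have h3 : 2 * r ≤ g * H := by
    have h4 : g * (2 * N / (τ * g) / L) ≤ g * H := mul_le_mul_of_nonneg_left hH hg.le
    have h5 : g * (2 * N / (τ * g) / L) = 2 * r := by rw [hr]; field_simp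
    linarith
  have hH0 : 0 < H := by
    by_contra hneg
    have : g * H ≤ 0 := mul_nonpos_of_nonneg_of_nonpos hg.le (not_lt.1 hneg)
    linarith
  have h2r : 2 * r ≤ H := by nlinarith
  set E := H * L / (2 * Real.pi) with hE
  have hE0 : 0 < E := by positivity
  have hHM : H * M = 2 * r * E := by
    rw [hM, hr, hE]
    field_simp
  obtain ⟨a, ha⟩ : ∃ a : ℝ, a = 2 - R 0 - 2 * ((∫ x in (0:ℝ)..1, x * R x) - ∫ x in (1/2:ℝ)..1, x * R x) := ⟨_, rfl⟩
  obtain ⟨b, hb⟩ : ∃ b : ℝ, b = 2 * (∫ x in (1/2:ℝ)..1, x * R x) + 60 * g := ⟨_, rfl⟩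
  have hhalf0 : 0 ≤ ∫ x in (1/2:ℝ)..1, x * R x :=
    intervalIntegral.integral_nonneg (by norm_num) fun x hx => mul_nonneg (by linarith [hx.1]) (hk0.rnonneg x)
  have hlow0 : 0 ≤ (∫ x in (0:ℝ)..1, x * R x) - ∫ x in (1/2:ℝ)..1, x * R x := by
    have hRc := hk0.rcont
    rw [← intervalIntegral.integral_add_adjacent_intervals (a := (0:ℝ)) (b := 1/2) (c := 1)
      (Continuous.intervalIntegrable (by fun_prop) _ _) (Continuous.intervalIntegrable (by fun_prop) _ _)]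
    have : 0 ≤ ∫ x in (0:ℝ)..(1/2), x * R x :=
      intervalIntegral.integral_nonneg (by norm_num) fun x hx => mul_nonneg hx.1 (hk0.rnonneg x)
    linarith
  have ha2 : a ≤ 2 := by
    rw [ha]
    have := hk0.rnonneg 0
    linarith
  have hb0 : 0 ≤ b := by rw [hb]; positivity
  have hA0 : 0 ≤ volume.real S := measureReal_nonneg
  have hAT : volume.real S ≤ T := by
    have h1 : volume.real S ≤ volume.real (Set.Icc (T + L) (2 * T - L - H)) :=
      measureReal_mono hSI (by simp)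
    refine h1.trans ?_
    rcases le_total (T + L) (2 * T - L - H) with h4 | h4
    · rw [Real.volume_real_Icc_of_le h4]
      linarith
    · have : volume.real (Set.Icc (T + L) (2 * T - L - H)) = 0 := by
        rw [Real.volume_real_Icc, max_eq_right (by linarith)]
      rw [this]
      exact tpos.le
  have hG0 : 0 ≤ ∫ t in S, Gi (isoS U1 U2 (δ / L)) H t := integral_nonneg fun t => Gi_nonneg _ _ _
  have h6 := long_L (isoS U1 U2 (δ / L)) (A := (volume.real S * a - T * b) * M) (T1 := T + L) (T2 := 2 * T - L)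
    hr0 h2r hS hSI (fun S' h7 h8 h9 => by
      have h10 := tc S' h7 h8
      simp_rw [Ci_card]
      rw [← ha, ← hb, h9] at h10
      linarith) le_rfl (by linarith)
  have h7 := calcL hA0 hAT hr0 hH0 hE0.le hHM hg.le h3 ha2 hG0 h6 hb0
  rw [← ha]
  refine le_trans (le_of_eq ?_) h7
  rw [hb, hgd]
  ring

end

end Pool.Agent.K4H6.Qn
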